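import Pool.Agent.H47.KS.Targets

/-!
# MP_90d669_co, row QUA: quadratic functions with few values
-/

set_option autoImplicit false

namespace Pool.Agent.H7.KSU

open Finset Pool.Agent.H47.KS

/-- a chain of subsets -/
theorem chain {N : ℕ} (P : Finset (Fin N)) : ∃ Y : ℕ → Finset (Fin N),
    (∀ i, Y i ⊆ P) ∧ (∀ i, i ≤ P.card → (Y i).card = i) ∧ ∀ i j, i ≤ j → Y i ⊆ Y j := by
  classical
  refine ⟨fun i => (P.toList.take i).toFinset, ?_, ?_, ?_⟩
  · intro i v hv
    exact Finset.mem_toList.1 (List.mem_of_mem_take (List.mem_toFinset.1 hv))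
  · intro i hi
    have hnd : (P.toList.take i).Nodup := (Finset.nodup_toList P).sublist (List.take_sublist _ _)
    show ((P.toList.take i).toFinset).card = i
    rw [List.toFinset_card_of_nodup hnd, List.length_take, Finset.length_toList]
    omega
  · intro i j hij v hv
    have h1 := List.mem_toFinset.1 hv
    refine List.mem_toFinset.2 ?_
    exact (List.take_subset_take_left _ hij) h1

/-- sums over a chain increase -/
theorem chain_sum {N : ℕ} (P : Finset (Fin N)) (Y : ℕ → Finset (Fin N)) (g : Fin N → ℤ)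
    (h1 : ∀ i, Y i ⊆ P) (h2 : ∀ i, i ≤ P.card → (Y i).card = i) (h3 : ∀ i j, i ≤ j → Y i ⊆ Y j)
    (hg : ∀ y ∈ P, 0 < g y) (i j : ℕ) (hij : i < j) (hj : j ≤ P.card) :
    ∑ y ∈ Y i, g y < ∑ y ∈ Y j, g y := by
  have hss : Y i ⊂ Y j := by
    refine Finset.ssubset_iff_subset_ne.2 ⟨h3 i j hij.le, fun h => ?_⟩
    have e1 := h2 i (by omega)
    have e2 := h2 j hj
    rw [h] at e1
    omega
  obtain ⟨y, hy, hy'⟩ := Finset.exists_of_ssubset hss
  exact Finset.sum_lt_sum_of_subset hss.1 hy hy' (hg y (h1 j hy))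
    (fun z hz _ => (hg z (h1 j hz)).le)

/-- the increment of a quadratic function -/
theorem incr {N : ℕ} (Z : Finset (Fin N)) (f : Finset (Fin N) → ℤ) (a : Fin N → ℤ)
    (b : Fin N → Fin N → ℤ) (hs : ∀ x y, b x y = b y x)
    (hf : ∀ Y ⊆ Z, 2 * f Y = ∑ x ∈ Y, a x + ∑ x ∈ Y, ∑ y ∈ Y, b x y)
    (Y : Finset (Fin N)) (hY : Y ⊆ Z) (x : Fin N) (hx : x ∈ Z) (hxY : x ∉ Y) :
    2 * f (insert x Y) = 2 * f Y + a x + b x x + 2 * ∑ y ∈ Y, b x y := by
  rw [hf _ (Finset.insert_subset hx hY), hf Y hY, Finset.sum_insert hxY, Finset.sum_insert hxY,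
    Finset.sum_insert hxY]
  have e1 : ∑ u ∈ Y, ∑ v ∈ insert x Y, b u v = ∑ u ∈ Y, b x u + ∑ u ∈ Y, ∑ v ∈ Y, b u v := by
    rw [← Finset.sum_add_distrib]
    refine Finset.sum_congr rfl fun u _ => ?_
    rw [Finset.sum_insert hxY, hs u x]
  rw [e1]
  ring

theorem few_pos (N d nu : ℕ) (Z : Finset (Fin N)) (f : Finset (Fin N) → ℤ)
    (a : Fin N → ℤ) (b : Fin N → Fin N → ℤ) (hd : 1 ≤ d) (hnu : 1 ≤ nu) (h4 : d ^ 2 + 1 ≤ 4 * nu)
    (hZ : Z.card = 2 * d ^ 2 * (8 * nu)) (hs : ∀ x y, b x y = b y x)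
    (hf : ∀ Y ⊆ Z, 2 * f Y = ∑ x ∈ Y, a x + ∑ x ∈ Y, ∑ y ∈ Y, b x y)
    (hT : ∀ T : Finset (Finset (Fin N)), (∀ Y ∈ T, Y ⊆ Z ∧ 4 * nu ≤ Y.card ∧ Y.card ≤ 8 * nu) →
      (T.image f).card < d) (x : Fin N) (hx : x ∈ Z) :
    ((Z.erase x).filter fun y => 0 < b x y).card < d ^ 2 := by
  classical
  by_contra hcon
  push Not at hcon
  obtain ⟨P0, hP0, hP0c⟩ := Finset.exists_subset_card_eq hcon
  have hP0Z : P0 ⊆ Z := fun y hy =>
    Finset.mem_of_mem_erase (Finset.mem_filter.1 (hP0 hy)).1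
  have hP0x : x ∉ P0 := fun h => Finset.ne_of_mem_erase (Finset.mem_filter.1 (hP0 h)).1 rfl
  have hP0b : ∀ y ∈ P0, 0 < b x y := fun y hy => (Finset.mem_filter.1 (hP0 hy)).2
  have hd2 : 1 ≤ d ^ 2 := Nat.one_le_pow _ _ hd
  have hcard : 4 * nu ≤ (Z \ insert x P0).card := by
    rw [Finset.card_sdiff_of_subset (Finset.insert_subset hx hP0Z),
      Finset.card_insert_of_notMem hP0x, hP0c, hZ]
    have h5 : 1 * (16 * nu) ≤ d ^ 2 * (16 * nu) := Nat.mul_le_mul_right _ hd2
    have h6 : 2 * d ^ 2 * (8 * nu) = d ^ 2 * (16 * nu) := by ring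
    rw [h6]
    omega
  obtain ⟨B, hB, hBc⟩ := Finset.exists_subset_card_eq hcard
  have hBZ : B ⊆ Z := fun y hy => (Finset.mem_sdiff.1 (hB hy)).1
  have hBx : x ∉ B := fun h => (Finset.mem_sdiff.1 (hB h)).2 (Finset.mem_insert_self _ _)
  have hBP : Disjoint B P0 := by
    rw [Finset.disjoint_left]
    intro y hy hy'
    exact (Finset.mem_sdiff.1 (hB hy)).2 (Finset.mem_insert_of_mem hy')
  obtain ⟨Y, hY1, hY2, hY3⟩ := chain P0
  rw [hP0c] at hY2
  have hdis : ∀ i, Disjoint B (Y i) := fun i => hBP.mono_right (hY1 i)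
  have hsub : ∀ i, B ∪ Y i ⊆ Z := fun i => Finset.union_subset hBZ ((hY1 i).trans hP0Z)
  have hxn : ∀ i, x ∉ B ∪ Y i := fun i h => by
    rcases Finset.mem_union.1 h with h | h
    · exact hBx h
    · exact hP0x (hY1 i h)
  have hc : ∀ i, i ≤ d ^ 2 → (B ∪ Y i).card = 4 * nu + i := by
    intro i hi
    rw [Finset.card_union_of_disjoint (hdis i), hBc, hY2 i hi]
  -- the first family
  have hV := hT ((Finset.range (d ^ 2 + 1)).image fun i => B ∪ Y i) (by
    intro W hW
    obtain ⟨i, hi, rfl⟩ := Finset.mem_image.1 hW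
    rw [Finset.mem_range] at hi
    have := hc i (by omega)
    exact ⟨hsub i, by omega, by omega⟩)
  have hpig : (((Finset.range (d ^ 2 + 1)).image fun i => B ∪ Y i).image f).card * d
      < (Finset.range (d ^ 2 + 1)).card := by
    rw [Finset.card_range]
    have h5 : (((Finset.range (d ^ 2 + 1)).image fun i => B ∪ Y i).image f).card * d ≤ d * d :=
      Nat.mul_le_mul_right _ hV.le
    have h6 : d * d = d ^ 2 := by ring
    omega
  obtain ⟨v, -, hv⟩ := Finset.exists_lt_card_fiber_of_mul_lt_card_of_maps_to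
    (f := fun i => f (B ∪ Y i)) (fun i hi =>
      Finset.mem_image_of_mem f (Finset.mem_image_of_mem (fun i => B ∪ Y i) hi)) hpig
  obtain ⟨I, hI⟩ : ∃ I : Finset ℕ, I = (Finset.range (d ^ 2 + 1)).filter
    fun i => f (B ∪ Y i) = v := ⟨_, rfl⟩
  rw [← hI] at hv
  have hIm : ∀ i ∈ I, i ≤ d ^ 2 ∧ f (B ∪ Y i) = v := by
    intro i hi
    rw [hI, Finset.mem_filter, Finset.mem_range] at hi
    exact ⟨by omega, hi.2⟩
  have hlt : ∀ i ∈ I, ∀ j ∈ I, i < j → f (insert x (B ∪ Y i)) < f (insert x (B ∪ Y j)) := by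
    intro i hi j hj hij
    have e1 := incr Z f a b hs hf (B ∪ Y i) (hsub i) x hx (hxn i)
    have e2 := incr Z f a b hs hf (B ∪ Y j) (hsub j) x hx (hxn j)
    rw [(hIm i hi).2, Finset.sum_union (hdis i)] at e1
    rw [(hIm j hj).2, Finset.sum_union (hdis j)] at e2
    have e3 := chain_sum P0 Y (b x) hY1 (by rw [hP0c]; exact hY2) hY3 hP0b i j hij
      (by rw [hP0c]; exact (hIm j hj).1)
    linarith
  have hinj : Set.InjOn (fun i => f (insert x (B ∪ Y i))) (I : Set ℕ) := by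
    intro i hi j hj hij
    rcases lt_trichotomy i j with h | h | h
    · exact absurd hij (hlt i hi j hj h).ne
    · exact h
    · exact absurd hij (hlt j hj i hi h).ne'
  have hW := hT (I.image fun i => insert x (B ∪ Y i)) (by
    intro W hW
    obtain ⟨i, hi, rfl⟩ := Finset.mem_image.1 hW
    have h5 := (hIm i hi).1
    have h6 := hc i h5
    rw [Finset.card_insert_of_notMem (hxn i)]
    exact ⟨Finset.insert_subset hx (hsub i), by omega, by omega⟩)
  rw [Finset.image_image] at hW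
  have h7 : (I.image (f ∘ fun i => insert x (B ∪ Y i))).card = I.card :=
    Finset.card_image_of_injOn hinj
  rw [h7] at hW
  omega

/-- few elements with positive weight -/
theorem few_tau (N d nu : ℕ) (X0 Z : Finset (Fin N)) (f : Finset (Fin N) → ℤ) (τ : Fin N → ℤ)
    (h4 : d ^ 2 + 1 ≤ 4 * nu) (hd : 1 ≤ d)
    (hX : X0.card = 8 * nu) (hXZ : X0 ⊆ Z) (hf : ∀ Y ⊆ X0, f Y = ∑ x ∈ Y, τ x)
    (hT : ∀ T : Finset (Finset (Fin N)), (∀ Y ∈ T, Y ⊆ Z ∧ 4 * nu ≤ Y.card ∧ Y.card ≤ 8 * nu) →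
      (T.image f).card < d) : (X0.filter fun y => 0 < τ y).card < d := by
  classical
  by_contra hcon
  push Not at hcon
  obtain ⟨P0, hP0, hP0c⟩ := Finset.exists_subset_card_eq hcon
  have hP0X : P0 ⊆ X0 := fun y hy => (Finset.mem_filter.1 (hP0 hy)).1
  have hP0b : ∀ y ∈ P0, 0 < τ y := fun y hy => (Finset.mem_filter.1 (hP0 hy)).2
  have hdd : d ≤ d ^ 2 := Nat.le_self_pow two_ne_zero d
  have hcard : 4 * nu ≤ (X0 \ P0).card := by
    rw [Finset.card_sdiff_of_subset hP0X, hP0c, hX]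
    omega
  obtain ⟨B, hB, hBc⟩ := Finset.exists_subset_card_eq hcard
  have hBX : B ⊆ X0 := fun y hy => (Finset.mem_sdiff.1 (hB hy)).1
  have hBP : Disjoint B P0 := by
    rw [Finset.disjoint_left]
    intro y hy hy'
    exact (Finset.mem_sdiff.1 (hB hy)).2 hy'
  obtain ⟨Y, hY1, hY2, hY3⟩ := chain P0
  rw [hP0c] at hY2
  have hdis : ∀ i, Disjoint B (Y i) := fun i => hBP.mono_right (hY1 i)
  have hsub : ∀ i, B ∪ Y i ⊆ X0 := fun i => Finset.union_subset hBX ((hY1 i).trans hP0X)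
  have hlt : ∀ i j, i < j → j ≤ d → f (B ∪ Y i) < f (B ∪ Y j) := by
    intro i j hij hj
    rw [hf _ (hsub i), hf _ (hsub j), Finset.sum_union (hdis i), Finset.sum_union (hdis j)]
    have e3 := chain_sum P0 Y τ hY1 (by rw [hP0c]; exact hY2) hY3 hP0b i j hij
      (by rw [hP0c]; exact hj)
    linarith
  have hinj : Set.InjOn (fun i => f (B ∪ Y i)) ((Finset.range (d + 1) : Finset ℕ) : Set ℕ) := by
    intro i hi j hj hij
    have hi' := Finset.mem_range.1 (Finset.mem_coe.1 hi)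
    have hj' := Finset.mem_range.1 (Finset.mem_coe.1 hj)
    rcases lt_trichotomy i j with h | h | h
    · exact absurd hij (hlt i j h (by omega)).ne
    · exact h
    · exact absurd hij (hlt j i h (by omega)).ne'
  have hW := hT ((Finset.range (d + 1)).image fun i => B ∪ Y i) (by
    intro W hW
    obtain ⟨i, hi, rfl⟩ := Finset.mem_image.1 hW
    rw [Finset.mem_range] at hi
    have h6 : (B ∪ Y i).card = 4 * nu + i := by
      rw [Finset.card_union_of_disjoint (hdis i), hBc, hY2 i (by omega)]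
    exact ⟨(hsub i).trans hXZ, by omega, by omega⟩)
  rw [Finset.image_image] at hW
  have h7 : ((Finset.range (d + 1)).image (f ∘ fun i => B ∪ Y i)).card
      = (Finset.range (d + 1)).card := Finset.card_image_of_injOn hinj
  rw [h7, Finset.card_range] at hW
  omega

theorem neg_few {N d nu : ℕ} {Z : Finset (Fin N)} {f : Finset (Fin N) → ℤ}
    (hT : ∀ T : Finset (Finset (Fin N)), (∀ Y ∈ T, Y ⊆ Z ∧ 4 * nu ≤ Y.card ∧ Y.card ≤ 8 * nu) →
      (T.image f).card < d) :
    ∀ T : Finset (Finset (Fin N)), (∀ Y ∈ T, Y ⊆ Z ∧ 4 * nu ≤ Y.card ∧ Y.card ≤ 8 * nu) →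
      (T.image fun Y => -f Y).card < d := by
  classical
  intro T h
  have e : (T.image fun Y => -f Y) = (T.image f).image fun z => -z := by
    rw [Finset.image_image]
    rfl
  rw [e]
  exact Finset.card_image_le.trans_lt (hT T h)

theorem pf_QUA : T_QUA := by
  classical
  intro N d nu Z f a b hd hnu h4 hZ hs hf hT
  have hpos := few_pos N d nu Z f a b hd hnu h4 hZ hs hf hT
  have hneg := few_pos N d nu Z (fun Y => -f Y) (fun x => -a x) (fun x y => -b x y) hd hnu h4 hZ
    (fun x y => by rw [hs x y]) (fun Y hY => by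
      have := hf Y hY
      simp only [Finset.sum_neg_distrib]
      linarith) (neg_few hT)
  have hd2 : 1 ≤ d ^ 2 := Nat.one_le_pow _ _ hd
  -- bad elements
  obtain ⟨Bad, hBad⟩ : ∃ Bad : Fin N → Finset (Fin N),
    ∀ x, Bad x = insert x ((Z.erase x).filter fun y => b x y ≠ 0) := ⟨_, fun _ => rfl⟩
  have hBadc : ∀ x ∈ Z, (Bad x).card ≤ 2 * d ^ 2 - 1 := by
    intro x hx
    have h5 : ((Z.erase x).filter fun y => b x y ≠ 0) ⊆
        ((Z.erase x).filter fun y => 0 < b x y) ∪ ((Z.erase x).filter fun y => 0 < -b x y) := by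
      intro y hy
      rw [Finset.mem_filter] at hy
      rw [Finset.mem_union, Finset.mem_filter, Finset.mem_filter]
      rcases lt_or_gt_of_ne hy.2 with h | h
      · exact Or.inr ⟨hy.1, by linarith⟩
      · exact Or.inl ⟨hy.1, h⟩
    have h6 := Finset.card_le_card h5
    have h7 := Finset.card_union_le ((Z.erase x).filter fun y => 0 < b x y)
      ((Z.erase x).filter fun y => 0 < -b x y)
    have h8 := hpos x hx
    have h9 := hneg x hx
    have h10 := Finset.card_insert_le x ((Z.erase x).filter fun y => b x y ≠ 0)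
    rw [hBad]
    omega
  -- greedy choice
  have hgr : ∀ n, n ≤ 8 * nu → ∃ X0 ⊆ Z, X0.card = n ∧ ∀ x ∈ X0, ∀ y ∈ X0, x ≠ y → b x y = 0 := by
    intro n
    induction n with
    | zero => intro _; exact ⟨∅, Finset.empty_subset _, rfl, by simp⟩
    | succ n ih =>
      intro hn
      obtain ⟨X0, h5, h6, h7⟩ := ih (by omega)
      have h8 : (X0.biUnion Bad).card < Z.card := by
        have h9 : (X0.biUnion Bad).card ≤ ∑ _x ∈ X0, (2 * d ^ 2 - 1) :=
          Finset.card_biUnion_le.trans (Finset.sum_le_sum fun x hx => hBadc x (h5 hx))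
        rw [Finset.sum_const, h6, smul_eq_mul] at h9
        have h10 : n * (2 * d ^ 2 - 1) ≤ n * (2 * d ^ 2) := Nat.mul_le_mul_left _ (by omega)
        have h11 : n * (2 * d ^ 2) < (8 * nu) * (2 * d ^ 2) :=
          Nat.mul_lt_mul_of_pos_right (by omega) (by omega)
        have h12 : (8 * nu) * (2 * d ^ 2) = 2 * d ^ 2 * (8 * nu) := by ring
        omega
      obtain ⟨z, hz, hz'⟩ := Finset.exists_mem_notMem_of_card_lt_card h8
      rw [Finset.mem_biUnion] at hz'
      push Not at hz'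
      have hzz : ∀ x ∈ X0, z ≠ x ∧ b x z = 0 := by
        intro x hx
        have h9 := hz' x hx
        rw [hBad, Finset.mem_insert, not_or, Finset.mem_filter] at h9
        refine ⟨h9.1, ?_⟩
        by_contra h10
        exact h9.2 ⟨Finset.mem_erase.2 ⟨h9.1, hz⟩, h10⟩
      have hzX : z ∉ X0 := fun h => (hzz z h).1 rfl
      refine ⟨insert z X0, Finset.insert_subset hz h5, ?_, ?_⟩
      · rw [Finset.card_insert_of_notMem hzX, h6]
      · intro x hx y hy hxy
        rcases Finset.mem_insert.1 hx with rfl | hx'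
        · rcases Finset.mem_insert.1 hy with rfl | hy'
          · exact absurd rfl hxy
          · rw [hs]; exact (hzz y hy').2
        · rcases Finset.mem_insert.1 hy with rfl | hy'
          · exact (hzz x hx').2
          · exact h7 x hx' y hy' hxy
  obtain ⟨X0, hX0, hX0c, hX0b⟩ := hgr (8 * nu) le_rfl
  have hlin : ∀ Y ⊆ X0, f Y = ∑ x ∈ Y, f {x} := by
    intro Y hY
    have e1 := hf Y (hY.trans hX0)
    have e2 : ∀ x ∈ Y, ∑ y ∈ Y, b x y = b x x := by
      intro x hx
      rw [Finset.sum_eq_single x]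
      · intro y hy hyx
        exact hX0b x (hY hx) y (hY hy) hyx.symm
      · intro h; exact absurd hx h
    have e3 : ∀ x ∈ Y, 2 * f {x} = a x + b x x := by
      intro x hx
      have := hf {x} (Finset.singleton_subset_iff.2 (hX0 (hY hx)))
      simpa using this
    rw [Finset.sum_congr rfl e2, ← Finset.sum_add_distrib, ← Finset.sum_congr rfl e3,
      ← Finset.mul_sum] at e1
    linarith
  have h5 := few_tau N d nu X0 Z f (fun x => f {x}) h4 hd hX0c hX0 hlin hT
  have h6 := few_tau N d nu X0 Z (fun Y => -f Y) (fun x => -f {x}) h4 hd hX0c hX0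
    (fun Y hY => by rw [hlin Y hY, Finset.sum_neg_distrib]) (neg_few hT)
  have h7 : 4 * nu ≤ (X0.filter fun x => f {x} = 0).card := by
    have h8 : X0 ⊆ (X0.filter fun x => f {x} = 0) ∪
        ((X0.filter fun x => 0 < f {x}) ∪ (X0.filter fun x => 0 < -f {x})) := by
      intro x hx
      simp only [Finset.mem_union, Finset.mem_filter]
      rcases lt_trichotomy (f {x}) 0 with h | h | h
      · exact Or.inr (Or.inr ⟨hx, by linarith⟩)
      · exact Or.inl ⟨hx, h⟩
      · exact Or.inr (Or.inl ⟨hx, h⟩)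
    have h9 := Finset.card_le_card h8
    have h10 := Finset.card_union_le (X0.filter fun x => f {x} = 0)
      ((X0.filter fun x => 0 < f {x}) ∪ (X0.filter fun x => 0 < -f {x}))
    have h11 := Finset.card_union_le (X0.filter fun x => 0 < f {x})
      (X0.filter fun x => 0 < -f {x})
    have h12 : 2 * d ≤ d ^ 2 + 1 := by nlinarith [sq_nonneg ((d : ℤ) - 1)]
    omega
  obtain ⟨Y, hY, hYc⟩ := Finset.exists_subset_card_eq h7
  have hYX : Y ⊆ X0 := fun y hy => (Finset.mem_filter.1 (hY hy)).1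
  refine ⟨Y, hYX.trans hX0, hYc, ?_⟩
  rw [hlin Y hYX]
  exact Finset.sum_eq_zero fun y hy => (Finset.mem_filter.1 (hY hy)).2

end Pool.Agent.H7.KSU
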